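import Pool.Agent.Helper71.ISL.Defs

/-!
# Project ISL, module TZ: the kernel system on the zone
-/

set_option autoImplicit false

open Set Filter Topology
open scoped ContDiff ComplexConjugate

noncomputable section

namespace Pool.Agent.Helper8.ISL

open Pool.Agent.Helper71.UN
open Pool.Agent.Helper71.ISL

section

variable {β : ℂ} {Γ : ℤ → ℂ → Prop} {S : Finset ℤ} {m : ℤ} {r₁ r₂ ρ₀ ρ₁ : ℝ}
  {R : ℤ → ℂ → ℂ → ℝ} {Λ : Finset ℂ} {u : ℂ} {f g : ℂ → ℝ}

private theorem norm_u (hP : Par β Γ m r₁ r₂ ρ₀ ρ₁ u) : ρ₁ + r₂ < ‖u‖ := by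
  have h1 := hP.h1
  have h2 : (1 : ℝ) ≤ ‖β‖ ^ (m - 1) := one_le_zpow₀ hP.one.le (by linarith [hP.hm])
  have h3 : 0 < ρ₁ := hP.pos.trans hP.lt
  nlinarith

private theorem far_of_le (hP : Par β Γ m r₁ r₂ ρ₀ ρ₁ u) {x : ℂ} (hx : ‖x‖ ≤ ρ₁) :
    r₂ < ‖x - u‖ := by
  have h1 := norm_u hP
  have h2 : ‖u‖ ≤ ‖x‖ + ‖x - u‖ := by
    have : u = x - (x - u) := by ring
    calc ‖u‖ = ‖x - (x - u)‖ := by rw [← this]
      _ ≤ ‖x‖ + ‖x - u‖ := norm_sub_le _ _
  linarith

private theorem lt_of_near (hP : Par β Γ m r₁ r₂ ρ₀ ρ₁ u) {x : ℂ} (hx : ‖x - u‖ ≤ r₂) :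
    ρ₁ < ‖x‖ := by
  by_contra h
  exact absurd hx (not_le.2 (far_of_le hP (not_lt.1 h)))

private theorem u_ne (hP : Par β Γ m r₁ r₂ ρ₀ ρ₁ u) : u ≠ 0 := by
  have h1 := norm_u hP
  have h2 : 0 < ρ₁ := hP.pos.trans hP.lt
  have h3 : 0 < r₂ := (h2.trans hP.inn).trans_le hP.r12
  exact norm_pos_iff.1 (by linarith)

private theorem u_ne_neg (hP : Par β Γ m r₁ r₂ ρ₀ ρ₁ u) : u ≠ -u := by
  intro h
  exact u_ne hP (self_eq_neg.1 h)

private theorem TT_in (hP : Par β Γ m r₁ r₂ ρ₀ ρ₁ u) (hC : Cut ρ₀ ρ₁ f g)
    (hI : IslK Γ S m r₁ r₂ R Λ) {x : ℂ} (hx : ‖x‖ ≤ ρ₁) (l : ℤ) (v : ℂ) :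
    TT f g u R m ρ₁ l x v =
      (if l = 0 then (if v = 0 then f x else 0) + (if v = u then g x else 0) else 0) +
      (if l = 1 then (if v = 0 then 1 - f x else 0) - (if v = u then g x else 0) else 0) := by
  have h1 := far_of_le hP hx
  have h2 : ρ₁ ≤ ‖x - u‖ := by linarith [hP.inn, hP.r12]
  obtain ⟨h3, h4⟩ := hC.fo _ h2
  have hm0 : m ≠ 0 := by have := hP.hm; omega
  have hm1 : m ≠ 1 := by have := hP.hm; omega
  unfold TT EE ci
  rw [hI.outer _ h1, h3, h4, if_pos hx]
  by_cases hl0 : l = 0
  · subst hl0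
    simp [hm0.symm]
  · by_cases hl1 : l = 1
    · subst hl1
      by_cases hv : v = 0
      · subst hv
        simp [hm1.symm, (u_ne hP).symm]
        ring
      · simp [hm1.symm, hv]
    · simp [hl0, hl1]

private theorem TT_near (hP : Par β Γ m r₁ r₂ ρ₀ ρ₁ u) (hC : Cut ρ₀ ρ₁ f g)
    {x : ℂ} (hx : ‖x - u‖ ≤ r₂) (l : ℤ) (v : ℂ) :
    TT f g u R m ρ₁ l x v = R l (x - u) v +
      (if l = 0 then (if v = 0 then - f (x - u) else 0) + (if v = -u then g (x - u) else 0) else 0) -
      (if l = 1 then (if v = 0 then - f (x - u) else 0) + (if v = -u then g (x - u) else 0) else 0) := by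
  have h1 := lt_of_near hP hx
  obtain ⟨h3, h4⟩ := hC.fo _ h1.le
  unfold TT EE ci
  rw [h3, h4, if_neg (not_le.2 h1)]
  by_cases hv : v = 0
  · subst hv
    by_cases hlm : l = m
    · subst hlm
      simp [(u_ne hP), (u_ne hP).symm]
      ring
    · simp [hlm, (u_ne hP), (u_ne hP).symm]
  · simp [hv]

private theorem TT_a (hP : Par β Γ m r₁ r₂ ρ₀ ρ₁ u) (hC : Cut ρ₀ ρ₁ f g)
    (hI : IslK Γ S m r₁ r₂ R Λ) {x : ℂ} (hx : ‖x - u‖ < r₁) (l : ℤ) (v : ℂ) :
    TT f g u R m ρ₁ l x v =
      (if l = 0 then (if v = 0 then 1 - f (x - u) else 0) + (if v = -u then g (x - u) else 0) else 0) +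
      (if l = 1 then (if v = 0 then f (x - u) else 0) - (if v = -u then g (x - u) else 0) else 0) := by
  rw [TT_near hP hC (hx.le.trans hP.r12), hI.inner _ hx]
  by_cases hl0 : l = 0
  · subst hl0
    by_cases hv : v = 0
    · subst hv
      simp [u_ne hP]
      try ring
    · simp [hv]
  · by_cases hl1 : l = 1
    · subst hl1
      by_cases hv : v = 0
      · subst hv
        simp [u_ne hP]
      · simp [hv]
    · simp [hl0, hl1]

private theorem TT_b (hP : Par β Γ m r₁ r₂ ρ₀ ρ₁ u) (hC : Cut ρ₀ ρ₁ f g)
    {x : ℂ} (hx : ‖x - u‖ ≤ r₂) (hx' : r₁ ≤ ‖x - u‖) (l : ℤ) (v : ℂ) :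
    TT f g u R m ρ₁ l x v = R l (x - u) v := by
  rw [TT_near hP hC hx]
  obtain ⟨h3, h4⟩ := hC.fo _ (hP.inn.le.trans hx')
  rw [h3, h4]
  simp

private theorem R_shift (hI : IslK Γ S m r₁ r₂ R Λ) {z w : ℂ} {l : ℤ}
    (hz : ‖z‖ ≤ r₂) (hz' : r₁ ≤ ‖z‖) (h : R l z w ≠ 0) : ‖z + w‖ ≤ r₂ ∧ r₁ ≤ ‖z + w‖ := by
  by_cases hw : w = 0
  · subst hw
    rw [add_zero]
    exact ⟨hz, hz'⟩
  have h1 : R l (z + w) (-w) ≠ 0 := by rw [hI.symm]; exact h
  constructor
  · by_contra hcon
    rw [hI.outer _ (not_le.1 hcon)] at h1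
    simp [hw] at h1
  · by_contra hcon
    rw [hI.inner _ (not_le.1 hcon)] at h1
    simp [hw] at h1

end

theorem hTZ : Pool.Agent.Helper71.ISL.StTZ := by
  intro β Γ S m r₁ r₂ ρ₀ ρ₁ R Λ u f g hP hC hI
  have hu := u_ne hP
  have huu := u_ne_neg hP
  refine ⟨?_, ?_⟩
  · -- symmetry
    intro l y v
    unfold TT EE
    have e1 : R l (y + v - u) (-v) = R l (y - u) v := by
      rw [show y + v - u = (y - u) + v by ring]
      exact hI.symm _ _ _
    have e2 : ci f g u (y + v) (-v) = ci f g u y v := by
      unfold ci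
      by_cases hv : v = 0
      · subst hv
        simp [hu, hu.symm]
      by_cases hvu : v = u
      · subst hvu
        simp [hv, huu, huu.symm]
      by_cases hvu' : v = -u
      · subst hvu'
        simp [hu, huu, huu.symm]
        rfl
      · have h1 : ¬ (-v = u) := fun h => hvu' (by rw [← h, neg_neg])
        simp [hv, hvu, hvu', h1]
    rw [e1, e2]
    by_cases hv : v = 0
    · subst hv
      simp
    · simp [hv]
  intro y hy
  have hΛ0 : (0 : ℂ) ∈ insert 0 (insert u (insert (-u) Λ)) := by simp
  have hΛu : u ∈ insert 0 (insert u (insert (-u) Λ)) := by simp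
  have hΛu' : -u ∈ insert 0 (insert u (insert (-u) Λ)) := by simp
  have hΛ : Λ ⊆ insert 0 (insert u (insert (-u) Λ)) := by
    intro w hw
    simp [hw]
  refine ⟨?_, ?_, ?_, ?_⟩
  · -- support
    intro l v hT
    by_cases hB : ‖y - u‖ ≤ r₂
    · by_cases ha : ‖y - u‖ < r₁
      · rw [TT_a hP hC hI ha] at hT
        by_cases hv : v = 0
        · subst hv
          exact ⟨hΛ0, hP.zero l, by rw [add_zero]; exact hy⟩
        by_cases hv' : v = -u
        · subst hv'
          have hg : g (y - u) ≠ 0 := by
            intro h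
            apply hT
            simp [hu, h]
          have h0 : ρ₀ ≤ ‖y - u‖ := by
            by_contra hcon
            exact hg (hC.fi _ (not_le.1 hcon).le).2
          have h1 : ‖y - u‖ ≤ ρ₁ := by
            by_contra hcon
            exact hg (hC.fo _ (not_le.1 hcon).le).2
          refine ⟨hΛu', ?_, Or.inl ⟨by rwa [← sub_eq_add_neg], by rwa [← sub_eq_add_neg]⟩⟩
          by_cases hl0 : l = 0
          · rw [hl0]; exact hP.v0
          by_cases hl1 : l = 1
          · rw [hl1]; exact hP.v1
          · exact absurd (by simp [hl0, hl1]) hT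
        · exact absurd (by simp [hv, hv']) hT
      · rw [not_lt] at ha
        rw [TT_b hP hC hB ha] at hT
        refine ⟨hΛ (hI.supp _ _ _ hT), hI.lat _ _ _ hT, Or.inr ?_⟩
        have := (R_shift hI hB ha hT).1
        rwa [show y + v - u = y - u + v by ring]
    · have hA : ρ₀ ≤ ‖y‖ ∧ ‖y‖ ≤ ρ₁ := hy.resolve_right hB
      rw [TT_in hP hC hI hA.2] at hT
      by_cases hv : v = 0
      · subst hv
        exact ⟨hΛ0, hP.zero l, by rw [add_zero]; exact hy⟩
      by_cases hv' : v = u
      · subst hv'
        refine ⟨hΛu, ?_, Or.inr ?_⟩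
        · by_cases hl0 : l = 0
          · rw [hl0]; exact hP.u0
          by_cases hl1 : l = 1
          · rw [hl1]; exact hP.u1
          · exact absurd (by simp [hl0, hl1]) hT
        · rw [add_sub_cancel_right]
          linarith [hA.2, hP.inn, hP.r12]
      · exact absurd (by simp [hv, hv']) hT
  · -- labels
    intro l hl v
    simp only [Finset.mem_insert, not_or] at hl
    obtain ⟨h0, h1, h2, h3⟩ := hl
    unfold TT EE
    rw [hI.labs l h3]
    by_cases hx : ‖y‖ ≤ ρ₁
    · simp [h0, h1, h2, hx]
    · simp [h0, h1, h2, hx]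
  · -- idempotency
    intro l v
    by_cases hB : ‖y - u‖ ≤ r₂
    · by_cases ha : ‖y - u‖ < r₁
      · have hsub : ({0, -u} : Finset ℂ) ⊆ insert 0 (insert u (insert (-u) Λ)) := by
          intro w hw
          simp only [Finset.mem_insert, Finset.mem_singleton] at hw
          rcases hw with rfl | rfl
          · exact hΛ0
          · exact hΛu'
        rw [← Finset.sum_subset hsub]
        · rw [Finset.sum_pair (by simpa using hu), add_zero, sub_zero]
          by_cases hg : g (y - u) = 0
          · have hff := hC.fg (y - u)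
            rw [hg] at hff
            have hT0 : TT f g u R m ρ₁ l y (-u) = 0 := by
              rw [TT_a hP hC hI ha]; simp [hu, hg]
            rw [hT0, zero_mul, add_zero, TT_a hP hC hI ha, TT_a hP hC hI ha, hg]
            by_cases hl0 : l = 0
            · subst hl0
              by_cases hv : v = 0
              · subst hv; simp; nlinarith
              · simp [hv]
            by_cases hl1 : l = 1
            · subst hl1
              by_cases hv : v = 0
              · subst hv; simp; nlinarith
              · simp [hv]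
            · simp [hl0, hl1]
          · have h1 : ‖y - u‖ ≤ ρ₁ := by
              by_contra hcon
              exact hg (hC.fo _ (not_le.1 hcon).le).2
            have hff := hC.fg (y - u)
            rw [← sub_eq_add_neg, sub_neg_eq_add, TT_in hP hC hI h1, TT_a hP hC hI ha,
              TT_a hP hC hI ha, TT_a hP hC hI ha]
            by_cases hv : v = 0
            · subst hv
              by_cases hl0 : l = 0
              · subst hl0
                simp [hu, hu.symm]; nlinarith
              by_cases hl1 : l = 1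
              · subst hl1
                simp [hu, hu.symm]; nlinarith
              · simp [hl0, hl1]
            by_cases hv' : v = -u
            · subst hv'
              by_cases hl0 : l = 0
              · subst hl0
                simp [hu, hu.symm]; ring
              by_cases hl1 : l = 1
              · subst hl1
                simp [hu, hu.symm]; ring
              · simp [hl0, hl1]
            · have h2 : ¬ (v + u = 0) := fun h => hv' (eq_neg_of_add_eq_zero_left h)
              simp [hv, hv', h2]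
        · intro w _ hw
          simp only [Finset.mem_insert, Finset.mem_singleton, not_or] at hw
          rw [TT_a hP hC hI ha]
          simp [hw.1, hw.2]
      · rw [not_lt] at ha
        have hterm : ∀ w, TT f g u R m ρ₁ l y w * TT f g u R m ρ₁ l (y + w) (v - w) =
            R l (y - u) w * R l (y - u + w) (v - w) := by
          intro w
          rw [TT_b hP hC hB ha]
          by_cases hR : R l (y - u) w = 0
          · rw [hR, zero_mul, zero_mul]
          obtain ⟨h1, h2⟩ := R_shift hI hB ha hR
          have e : y + w - u = y - u + w := by ring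
          rw [TT_b hP hC (by rwa [e]) (by rwa [e]), e]
        simp only [hterm]
        rw [TT_b hP hC hB ha, ← hI.idem l (y - u) v]
        symm
        apply Finset.sum_subset hΛ
        intro w _ hw
        have : R l (y - u) w = 0 := by
          by_contra hcon
          exact hw (hI.supp _ _ _ hcon)
        rw [this, zero_mul]
    · have hA : ρ₀ ≤ ‖y‖ ∧ ‖y‖ ≤ ρ₁ := hy.resolve_right hB
      have hsub : ({0, u} : Finset ℂ) ⊆ insert 0 (insert u (insert (-u) Λ)) := by
        intro w hw
        simp only [Finset.mem_insert, Finset.mem_singleton] at hw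
        rcases hw with rfl | rfl
        · exact hΛ0
        · exact hΛu
      rw [← Finset.sum_subset hsub]
      · rw [Finset.sum_pair hu.symm, add_zero, sub_zero]
        have ha : ‖y + u - u‖ < r₁ := by
          rw [add_sub_cancel_right]; linarith [hA.2, hP.inn]
        have hff := hC.fg y
        rw [TT_a hP hC hI ha, TT_in hP hC hI hA.2, TT_in hP hC hI hA.2, TT_in hP hC hI hA.2,
          add_sub_cancel_right]
        by_cases hv : v = 0
        · subst hv
          by_cases hl0 : l = 0
          · subst hl0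
            simp [hu, hu.symm]; nlinarith
          by_cases hl1 : l = 1
          · subst hl1
            simp [hu, hu.symm]; nlinarith
          · simp [hl0, hl1]
        by_cases hv' : v = u
        · subst hv'
          by_cases hl0 : l = 0
          · subst hl0
            simp [hu, hu.symm]; ring
          by_cases hl1 : l = 1
          · subst hl1
            simp [hu, hu.symm]; ring
          · simp [hl0, hl1]
        · have h2 : ¬ (v - u = 0) := fun h => hv' (sub_eq_zero.1 h)
          have h3 : ¬ (v - u = -u) := fun h => hv (by linear_combination h)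
          simp [hv, hv', h2, h3]
      · intro w _ hw
        simp only [Finset.mem_insert, Finset.mem_singleton, not_or] at hw
        rw [TT_in hP hC hI hA.2]
        simp [hw.1, hw.2]
  · -- sum
    intro v
    set S' : Finset ℤ := insert 0 (insert 1 (insert m S)) with hS'
    have h0 : (0 : ℤ) ∈ S' := by simp [hS']
    have h1 : (1 : ℤ) ∈ S' := by simp [hS']
    have hm : m ∈ S' := by simp [hS']
    have hk : (if ‖y‖ ≤ ρ₁ then (1 : ℤ) else m) ∈ S' := by
      split_ifs
      · exact h1
      · exact hm
    have hSS : S ⊆ S' := by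
      intro l hl
      simp [hS', hl]
    have hR : ∑ l ∈ S', R l (y - u) v = if v = 0 then 1 else 0 := by
      rw [← hI.sum (y - u) v]
      symm
      apply Finset.sum_subset hSS
      intro l _ hl
      exact hI.labs l hl _ _
    have hsum : ∀ (k : ℤ) (c : ℝ), k ∈ S' → ∑ l ∈ S', (if l = k then c else 0) = c := by
      intro k c hk
      rw [Finset.sum_ite_eq' S' k, if_pos hk]
    have hsum' : ∀ (k : ℤ), k ∈ S' → ∑ l ∈ S', (if l = k ∧ v = 0 then (1 : ℝ) else 0) =
        if v = 0 then 1 else 0 := by
      intro k hk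
      by_cases hv : v = 0
      · simp [hv, hk]
      · simp [hv]
    unfold TT EE
    rw [Finset.sum_add_distrib, Finset.sum_sub_distrib, Finset.sum_add_distrib,
      Finset.sum_sub_distrib, hR, hsum 0 _ h0, hsum 1 _ h1, hsum' m hm, hsum' _ hk]
    ring

end Pool.Agent.Helper8.ISL
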